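import Pool.Agent.Helper38.VF.Goals2

/-!
# Approximation of the projection to the closure of the range of an operator
-/

set_option autoImplicit false

namespace Pool.Agent.Helper74.VF

open scoped InnerProductSpace

variable {H₁ H₂ : Type*} [NormedAddCommGroup H₁] [InnerProductSpace ℝ H₁]
  [CompleteSpace H₁] [NormedAddCommGroup H₂] [InnerProductSpace ℝ H₂] [CompleteSpace H₂]

theorem inner_tt (T : H₁ →L[ℝ] H₂) (ε : ℝ) (z : H₂) :
    inner ℝ (T (T.adjoint z) + ε • z) z = ‖T.adjoint z‖ ^ 2 + ε * ‖z‖ ^ 2 := by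
  rw [inner_add_left, inner_smul_left, real_inner_self_eq_norm_sq,
    ← ContinuousLinearMap.adjoint_inner_right, real_inner_self_eq_norm_sq]
  simp

theorem exists_inv (T : H₁ →L[ℝ] H₂) (ε : ℝ) (hε : 0 < ε) :
    ∃ S : H₂ →L[ℝ] H₂, (∀ y, T (T.adjoint (S y)) + ε • S y = y) ∧
      ∀ y, S (T (T.adjoint y) + ε • y) = y := by
  have hu : IsUnit (T.comp T.adjoint + ε • (1 : H₂ →L[ℝ] H₂)) := by
    refine ContinuousLinearMap.isUnit_of_forall_le_norm_inner_map _ (c := ⟨ε, hε.le⟩)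
      (by exact_mod_cast hε) fun x => ?_
    have h1 : inner ℝ ((T.comp T.adjoint + ε • (1 : H₂ →L[ℝ] H₂)) x) x
        = ‖T.adjoint x‖ ^ 2 + ε * ‖x‖ ^ 2 := inner_tt T ε x
    rw [h1, Real.norm_of_nonneg (by positivity)]
    change ‖x‖ ^ 2 * ε ≤ _
    nlinarith [sq_nonneg ‖T.adjoint x‖]
  obtain ⟨w, hw⟩ := hu
  refine ⟨(↑w⁻¹ : H₂ →L[ℝ] H₂), fun y => ?_, fun y => ?_⟩
  · have h2 : (w : H₂ →L[ℝ] H₂) * (↑w⁻¹ : H₂ →L[ℝ] H₂) = 1 := w.mul_inv
    have h3 := congrArg (fun f : H₂ →L[ℝ] H₂ => f y) h2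
    rw [hw] at h3
    exact h3
  · have h2 : (↑w⁻¹ : H₂ →L[ℝ] H₂) * (w : H₂ →L[ℝ] H₂) = 1 := w.inv_mul
    have h3 := congrArg (fun f : H₂ →L[ℝ] H₂ => f y) h2
    rw [hw] at h3
    exact h3

theorem norm_inv_le (T : H₁ →L[ℝ] H₂) (ε : ℝ) (z y : H₂)
    (h : T (T.adjoint z) + ε • z = y) : ε * ‖z‖ ≤ ‖y‖ := by
  have h1 := inner_tt T ε z
  rw [h] at h1
  have h2 : inner ℝ y z ≤ ‖y‖ * ‖z‖ := real_inner_le_norm y z
  rcases eq_or_lt_of_le (norm_nonneg z) with h3 | h3
  · rw [← h3]; simp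
  · nlinarith [sq_nonneg ‖T.adjoint z‖]

/-- `T T†` has dense range in the closure of the range of `T`. -/
theorem range_tt (T : H₁ →L[ℝ] H₂) :
    (T.comp T.adjoint).range.topologicalClosure
      = T.range.topologicalClosure := by
  have h1 : (T.comp T.adjoint).rangeᗮ = T.rangeᗮ := by
    have ha := ContinuousLinearMap.orthogonal_range (T.comp T.adjoint)
    have hb := ContinuousLinearMap.orthogonal_range T
    have hc : (T.comp T.adjoint).adjoint = T.comp T.adjoint := by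
      rw [ContinuousLinearMap.adjoint_comp, ContinuousLinearMap.adjoint_adjoint]
    rw [hc] at ha
    have hd := ContinuousLinearMap.ker_self_comp_adjoint T
    rw [hd] at ha
    exact ha.trans hb.symm
  rw [← Submodule.orthogonal_orthogonal_eq_closure, ← Submodule.orthogonal_orthogonal_eq_closure,
    h1]

/-- The approximation. -/
theorem approx (T : H₁ →L[ℝ] H₂) (k : ℕ) (v : Fin k → H₂) (η : ℝ) (hη : 0 < η) :
    ∃ S : H₂ →L[ℝ] H₂, (∀ x : H₁, inner ℝ (T.adjoint (S (T x))) x ≤ ‖x‖ ^ 2) ∧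
    (∀ j, ‖T.range.topologicalClosure.starProjection (v j)‖ ^ 2 - η ≤
      inner ℝ (S (T (T.adjoint (v j)))) (v j)) ∧
    ∀ (U₁ : H₁ ≃ₗᵢ[ℝ] H₁) (U₂ : H₂ ≃ₗᵢ[ℝ] H₂), (∀ x, T (U₁ x) = U₂ (T x)) →
      (∀ y, S (U₂ y) = U₂ (S y)) ∧ ∀ y, T.adjoint (U₂ y) = U₁ (T.adjoint y) := by
  set R := T.range.topologicalClosure with hR
  have hu : ∀ j, ∃ u : H₂, ‖R.starProjection (v j) - T (T.adjoint u)‖ * ‖v j‖ ≤ η / 2 := by
    intro j
    have h1 : R.starProjection (v j) ∈
        (T.comp T.adjoint).range.topologicalClosure := by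
      rw [range_tt]; exact Submodule.starProjection_apply_mem _ _
    have h2 : R.starProjection (v j) ∈
        closure ((T.comp T.adjoint).range : Set H₂) := h1
    obtain ⟨b, ⟨u, hb⟩, hd⟩ := Metric.mem_closure_iff.1 h2 (η / 2 / (‖v j‖ + 1)) (by positivity)
    refine ⟨u, ?_⟩
    have h3 : T (T.adjoint u) = b := hb
    rw [h3]
    rw [dist_eq_norm] at hd
    have h4 : 0 ≤ ‖v j‖ := norm_nonneg _
    calc ‖R.starProjection (v j) - b‖ * ‖v j‖
        ≤ (η / 2 / (‖v j‖ + 1)) * (‖v j‖ + 1) := by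
          apply mul_le_mul hd.le (by linarith) h4 (by positivity)
      _ = η / 2 := by field_simp
  choose u hu using hu
  set M : ℝ := ∑ j, ‖u j‖ * ‖v j‖ with hM
  have hM0 : 0 ≤ M := Finset.sum_nonneg fun j _ => by positivity
  have hMj : ∀ j, ‖u j‖ * ‖v j‖ ≤ M := fun j =>
    Finset.single_le_sum (f := fun j => ‖u j‖ * ‖v j‖) (fun i _ => by positivity)
      (Finset.mem_univ j)
  set ε : ℝ := η / (4 * (1 + M)) with hεd
  have hε : 0 < ε := by positivity
  obtain ⟨S, hS1, hS2⟩ := exists_inv T ε hε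
  have hSb : ∀ y, ε * ‖S y‖ ≤ ‖y‖ := fun y => norm_inv_le T ε (S y) y (hS1 y)
  refine ⟨S, fun x => ?_, fun j => ?_, fun U₁ U₂ hU => ?_⟩
  · rw [ContinuousLinearMap.adjoint_inner_left]
    set y := S (T x) with hy
    have h1 : T (T.adjoint y) + ε • y = T x := hS1 (T x)
    have h2 := inner_tt T ε y
    rw [h1] at h2
    have h3 : inner ℝ y (T x) = inner ℝ (T x) y := real_inner_comm _ _
    have h4 : inner ℝ (T.adjoint y) x = inner ℝ y (T x) :=
      ContinuousLinearMap.adjoint_inner_left T x y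
    have h5 : inner ℝ (T.adjoint y) x ≤ ‖T.adjoint y‖ * ‖x‖ := real_inner_le_norm _ _
    have h6 : 0 ≤ ε * ‖y‖ ^ 2 := by positivity
    have h7 : ‖T.adjoint y‖ ≤ ‖x‖ := by
      by_contra hc
      push Not at hc
      have : 0 ≤ ‖x‖ := norm_nonneg x
      nlinarith
    have h8 : 0 ≤ ‖x‖ := norm_nonneg x
    nlinarith
  · set w := R.starProjection (v j) with hw
    have h1 : T.adjoint (v j) = T.adjoint w := by
      have h2 : v j - w ∈ Rᗮ := Submodule.sub_starProjection_mem_orthogonal _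
      have h3 : v j - w ∈ T.rangeᗮ :=
        Submodule.orthogonal_le (Submodule.le_topologicalClosure _) h2
      have h4 := ContinuousLinearMap.orthogonal_range T
      have h5 : v j - w ∈ T.adjoint.ker := by
        rw [← h4]; exact h3
      have h6 : T.adjoint (v j - w) = 0 := h5
      rw [map_sub, sub_eq_zero] at h6
      exact h6
    have h2 : S (T (T.adjoint w)) = w - ε • S w := by
      have h3 := hS2 w
      rw [map_add, map_smul] at h3
      rw [eq_sub_iff_add_eq]; exact h3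
    have h3 : inner ℝ w (v j) = ‖w‖ ^ 2 := by
      have h4 : inner ℝ w (v j - w) = 0 :=
        Submodule.inner_right_of_mem_orthogonal (Submodule.starProjection_apply_mem _ _)
          (Submodule.sub_starProjection_mem_orthogonal (K := R) (v j))
      rw [inner_sub_right, real_inner_self_eq_norm_sq] at h4
      linarith
    rw [h1, h2, inner_sub_left, h3, inner_smul_left]
    have h5 : ε * ‖S w‖ ≤ ‖w - T (T.adjoint (u j))‖ + 2 * ε * ‖u j‖ := by
      have h6 : S w = S (w - T (T.adjoint (u j))) + (u j - ε • S (u j)) := by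
        have h7 : S (T (T.adjoint (u j))) = u j - ε • S (u j) := by
          have h3 := hS2 (u j)
          rw [map_add, map_smul] at h3
          rw [eq_sub_iff_add_eq]; exact h3
        rw [← h7, ← map_add, sub_add_cancel]
      have h8 : ‖S w‖ ≤ ‖S (w - T (T.adjoint (u j)))‖ + (‖u j‖ + ε * ‖S (u j)‖) := by
        rw [h6]
        refine (norm_add_le _ _).trans (add_le_add le_rfl ((norm_sub_le _ _).trans ?_))
        rw [norm_smul, Real.norm_of_nonneg hε.le]
      have h9 := hSb (w - T (T.adjoint (u j)))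
      have h10 := hSb (u j)
      nlinarith [mul_le_mul_of_nonneg_left h8 hε.le, mul_le_mul_of_nonneg_left h10 hε.le]
    have h6 : inner ℝ (S w) (v j) ≤ ‖S w‖ * ‖v j‖ := real_inner_le_norm _ _
    have h7 : ε * ‖u j‖ * ‖v j‖ ≤ η / 4 := by
      have h8 : ε * M ≤ η / 4 := by
        rw [hεd, div_mul_eq_mul_div, div_le_div_iff₀ (by positivity) (by positivity)]
        nlinarith
      nlinarith [mul_le_mul_of_nonneg_left (hMj j) hε.le]
    have h8 := hu j
    have h9 : ε * ‖S w‖ * ‖v j‖ ≤ (‖w - T (T.adjoint (u j))‖ + 2 * ε * ‖u j‖) * ‖v j‖ :=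
      mul_le_mul_of_nonneg_right h5 (norm_nonneg _)
    have h10 : ε * inner ℝ (S w) (v j) ≤ ε * (‖S w‖ * ‖v j‖) :=
      mul_le_mul_of_nonneg_left h6 hε.le
    have h11 : (starRingEnd ℝ) ε * inner ℝ (S w) (v j) = ε * inner ℝ (S w) (v j) := by simp
    rw [h11]
    nlinarith
  · have h1 : ∀ y, T.adjoint (U₂ y) = U₁ (T.adjoint y) := by
      intro y
      apply ext_inner_right ℝ
      intro x
      obtain ⟨x', rfl⟩ := U₁.surjective x
      rw [ContinuousLinearMap.adjoint_inner_left, hU, LinearIsometryEquiv.inner_map_map,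
        LinearIsometryEquiv.inner_map_map, ContinuousLinearMap.adjoint_inner_left]
    refine ⟨fun y => ?_, h1⟩
    have h2 : T (T.adjoint (U₂ (S y))) + ε • U₂ (S y) = U₂ y := by
      rw [h1, hU, ← map_smul, ← map_add, hS1]
    rw [← h2, hS2]

universe u

theorem tr2 : Pool.Agent.Helper38.VF.Tr2Stmt.{u} := by
  intro H₁ H₂ _ _ _ _ _ _ C hC k v η hη
  obtain ⟨S, h1, h2, h3⟩ := approx C k v η hη
  refine ⟨S, h1, fun j => ?_, h3⟩
  have h4 : C.range.topologicalClosure.starProjection (v j) = v j := by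
    rw [Submodule.starProjection_eq_self_iff]
    exact hC (v j)
  have h5 := h2 j
  rw [h4] at h5
  exact h5

end Pool.Agent.Helper74.VF
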