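import Pool.Agent.Helper74.VF.TR2

/-!
# The dimension of right invariant subspaces of `ℓ²(Fin k × A)`
-/

set_option autoImplicit false

namespace Pool.Agent.Helper74.VF

open Pool.Agent.Helper38.VF

universe u

/-- The subspace is invariant under right translations. -/
def RInv {A : Type u} [Group A] {k : ℕ} (E : Submodule ℝ (L2 (Fin k × A))) : Prop :=
  ∀ (h : A) (f f' : L2 (Fin k × A)), (∀ z, f' z = f (z.1, z.2 * h)) → f ∈ E → f' ∈ E

/-- The basis elements at `1`. -/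
noncomputable def dl (A : Type u) [Group A] {k : ℕ} (j : Fin k) : L2 (Fin k × A) := by
  classical
  exact lp.single 2 (j, (1 : A)) (1 : ℝ)

/-- The dimension of the closure. -/
noncomputable def dm {A : Type u} [Group A] {k : ℕ} (E : Submodule ℝ (L2 (Fin k × A))) : ℝ :=
  ∑ j : Fin k, ‖E.topologicalClosure.starProjection (dl A j)‖ ^ 2

variable {A : Type u} [Group A]

theorem inner_dl {k : ℕ} (j : Fin k) (f : L2 (Fin k × A)) :
    inner ℝ f (dl A j) = f (j, 1) := by
  classical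
  have := lp.inner_single_right (𝕜 := ℝ) (G := fun _ : Fin k × A => ℝ) (j, (1 : A)) (1 : ℝ) f
  unfold dl
  refine this.trans ?_
  simp

theorem norm_dl {k : ℕ} (j : Fin k) : ‖dl A j‖ = 1 := by
  classical
  unfold dl
  simp

theorem tr'_eq {n : ℕ} (Q : L2 (Fin n × A) →L[ℝ] L2 (Fin n × A)) :
    tr' Q = ∑ j : Fin n, inner ℝ (Q (dl A j)) (dl A j) := by
  unfold tr'
  refine Finset.sum_congr rfl fun j _ => ?_
  rw [inner_dl]
  rfl

/-- Projections commute with isometries. -/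
theorem proj_comm {H : Type*} [NormedAddCommGroup H] [InnerProductSpace ℝ H] [CompleteSpace H]
    (K : Submodule ℝ H) [K.HasOrthogonalProjection] (U : H ≃ₗᵢ[ℝ] H)
    (h1 : ∀ x ∈ K, U x ∈ K) (h2 : ∀ x ∈ K, U.symm x ∈ K) (x : H) :
    K.starProjection (U x) = U (K.starProjection x) := by
  apply Submodule.eq_starProjection_of_mem_orthogonal (h1 _ (Submodule.starProjection_apply_mem _ _))
  rw [← map_sub, Submodule.mem_orthogonal]
  intro g hg
  have h3 : inner ℝ g (U (x - K.starProjection x)) = inner ℝ (U.symm g) (x - K.starProjection x) := by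
    conv_lhs => rw [← U.apply_symm_apply g]
    rw [LinearIsometryEquiv.inner_map_map]
  rw [h3]
  exact Submodule.inner_right_of_mem_orthogonal (h2 g hg)
    (Submodule.sub_starProjection_mem_orthogonal x)

theorem inv_cl {k : ℕ} (E : Submodule ℝ (L2 (Fin k × A))) (hE : RInv E) (h : A)
    (R : L2 (Fin k × A) ≃ₗᵢ[ℝ] L2 (Fin k × A)) (hR : ∀ f z, R f z = f (z.1, z.2 * h)) :
    (∀ x ∈ E.topologicalClosure, R x ∈ E.topologicalClosure) ∧
      ∀ x ∈ E.topologicalClosure, R.symm x ∈ E.topologicalClosure := by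
  refine ⟨fun x hx => map_mem_closure R.continuous hx fun y hy => ?_,
    fun x hx => map_mem_closure R.symm.continuous hx fun y hy => ?_⟩
  · exact hE h y (R y) (fun z => hR y z) hy
  · refine hE h⁻¹ y (R.symm y) (fun z => ?_) hy
    have h1 := hR (R.symm y) (z.1, z.2 * h⁻¹)
    rw [R.apply_symm_apply] at h1
    simp only [inv_mul_cancel_right] at h1
    exact h1.symm

theorem dm_nonneg {k : ℕ} (E : Submodule ℝ (L2 (Fin k × A))) : 0 ≤ dm E :=
  Finset.sum_nonneg fun _ _ => by positivity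

theorem proj_mono {H : Type*} [NormedAddCommGroup H] [InnerProductSpace ℝ H]
    (K K' : Submodule ℝ H) [K.HasOrthogonalProjection] [K'.HasOrthogonalProjection] (h : K ≤ K')
    (x : H) : ‖K.starProjection x‖ ≤ ‖K'.starProjection x‖ := by
  have h1 := Submodule.starProjection_comp_starProjection_of_le h
  have h2 := congrArg (fun f : H →L[ℝ] H => f x) h1
  have h3 : K.starProjection (K'.starProjection x) = K.starProjection x := h2
  rw [← h3]
  exact Submodule.norm_starProjection_apply_le _ _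

theorem dm_mono {k : ℕ} (E F : Submodule ℝ (L2 (Fin k × A))) (h : E ≤ F) : dm E ≤ dm F := by
  refine Finset.sum_le_sum fun j _ => ?_
  have := proj_mono _ _ (Submodule.topologicalClosure_mono h) (dl A j)
  gcongr

theorem dm_le {k : ℕ} (E : Submodule ℝ (L2 (Fin k × A))) : dm E ≤ k := by
  have h1 : ∀ j : Fin k, ‖E.topologicalClosure.starProjection (dl A j)‖ ^ 2 ≤ 1 := by
    intro j
    have := Submodule.norm_starProjection_apply_le E.topologicalClosure (dl A j)
    rw [norm_dl] at this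
    nlinarith [norm_nonneg (E.topologicalClosure.starProjection (dl A j))]
  calc dm E ≤ ∑ _j : Fin k, (1 : ℝ) := Finset.sum_le_sum fun j _ => h1 j
    _ = k := by simp

theorem le_dm {k : ℕ} (E : Submodule ℝ (L2 (Fin k × A))) (j : Fin k) (v : L2 (Fin k × A))
    (hv : v ∈ E) : v (j, 1) ^ 2 ≤ ‖v‖ ^ 2 * dm E := by
  have h0 : v ∈ E.topologicalClosure := Submodule.le_topologicalClosure _ hv
  have h1 : inner ℝ v (dl A j) = inner ℝ v (E.topologicalClosure.starProjection (dl A j)) := by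
    have h2 : inner ℝ v (dl A j - E.topologicalClosure.starProjection (dl A j)) = 0 :=
      Submodule.inner_right_of_mem_orthogonal h0 (Submodule.sub_starProjection_mem_orthogonal _)
    rw [inner_sub_right, sub_eq_zero] at h2
    exact h2
  rw [inner_dl] at h1
  have h3 := abs_real_inner_le_norm v (E.topologicalClosure.starProjection (dl A j))
  rw [← h1] at h3
  have h4 : ‖E.topologicalClosure.starProjection (dl A j)‖ ^ 2 ≤ dm E :=
    Finset.single_le_sum (f := fun j : Fin k =>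
      ‖E.topologicalClosure.starProjection (dl A j)‖ ^ 2) (fun _ _ => by positivity)
      (Finset.mem_univ j)
  calc v (j, 1) ^ 2 = |v (j, 1)| ^ 2 := (sq_abs _).symm
    _ ≤ (‖v‖ * ‖E.topologicalClosure.starProjection (dl A j)‖) ^ 2 := by gcongr
    _ = ‖v‖ ^ 2 * ‖E.topologicalClosure.starProjection (dl A j)‖ ^ 2 := by ring
    _ ≤ ‖v‖ ^ 2 * dm E := by gcongr

theorem eqv_of_comm {m n : ℕ} (hR : RtrStmt.{u}) (C : L2 (Fin m × A) →L[ℝ] L2 (Fin n × A))
    (h : ∀ (h : A) (R₁ : L2 (Fin m × A) ≃ₗᵢ[ℝ] L2 (Fin m × A))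
      (R₂ : L2 (Fin n × A) ≃ₗᵢ[ℝ] L2 (Fin n × A)), (∀ f z, R₁ f z = f (z.1, z.2 * h)) →
      (∀ f z, R₂ f z = f (z.1, z.2 * h)) → ∀ x, C (R₁ x) = R₂ (C x)) : Eqv C := by
  intro g f f' hf z
  obtain ⟨R₁, h1⟩ := hR A m g
  obtain ⟨R₂, h2⟩ := hR A n g
  have h3 : f' = R₁ f := by
    apply lp.ext
    funext z
    rw [hf, h1]
  rw [h3, h g R₁ R₂ h1 h2, h2]

theorem comm_of_eqv {m n : ℕ} (C : L2 (Fin m × A) →L[ℝ] L2 (Fin n × A)) (hC : Eqv C) (h : A)
    (R₁ : L2 (Fin m × A) ≃ₗᵢ[ℝ] L2 (Fin m × A)) (R₂ : L2 (Fin n × A) ≃ₗᵢ[ℝ] L2 (Fin n × A))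
    (h1 : ∀ f z, R₁ f z = f (z.1, z.2 * h)) (h2 : ∀ f z, R₂ f z = f (z.1, z.2 * h))
    (x : L2 (Fin m × A)) : C (R₁ x) = R₂ (C x) := by
  apply lp.ext
  funext z
  rw [h2]
  exact hC h x (R₁ x) (fun z => h1 x z) z

/-- **Lemma D.** -/
theorem dm_map (hT : Tr1Stmt.{u}) (hR : RtrStmt.{u}) {n k : ℕ}
    (C : L2 (Fin n × A) →L[ℝ] L2 (Fin k × A)) (hC : Eqv C) (E : Submodule ℝ (L2 (Fin n × A)))
    (hE : RInv E) : dm (E.map (C : L2 (Fin n × A) →ₗ[ℝ] L2 (Fin k × A))) ≤ dm E := by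
  set P := E.topologicalClosure.starProjection with hP
  set T := C.comp P with hTd
  have hTP : ∀ x, T (P x) = T x := by
    intro x
    have h1 : P (P x) = P x :=
      Submodule.starProjection_eq_self_iff.2 (Submodule.starProjection_apply_mem _ _)
    change C (P (P x)) = C (P x)
    rw [h1]
  have hle : (E.map (C : L2 (Fin n × A) →ₗ[ℝ] L2 (Fin k × A))).topologicalClosure ≤
      T.range.topologicalClosure := by
    apply Submodule.topologicalClosure_mono
    rintro _ ⟨x, hx, rfl⟩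
    refine ⟨x, ?_⟩
    have h1 : P x = x :=
      Submodule.starProjection_eq_self_iff.2 (Submodule.le_topologicalClosure _ hx)
    change C (P x) = C x
    rw [h1]
  have hcT : ∀ (h : A) (R₁ : L2 (Fin n × A) ≃ₗᵢ[ℝ] L2 (Fin n × A))
      (R₂ : L2 (Fin k × A) ≃ₗᵢ[ℝ] L2 (Fin k × A)), (∀ f z, R₁ f z = f (z.1, z.2 * h)) →
      (∀ f z, R₂ f z = f (z.1, z.2 * h)) → ∀ x, T (R₁ x) = R₂ (T x) := by
    intro h R₁ R₂ h1 h2 x
    have h3 := inv_cl E hE h R₁ h1
    have h4 := proj_comm E.topologicalClosure R₁ h3.1 h3.2 x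
    change C (P (R₁ x)) = R₂ (C (P x))
    rw [hP, h4, comm_of_eqv C hC h R₁ R₂ h1 h2]
  have key : ∀ η : ℝ, 0 < η →
      dm (E.map (C : L2 (Fin n × A) →ₗ[ℝ] L2 (Fin k × A))) - k * η ≤ dm E := by
    intro η hη
    obtain ⟨S, hS1, hS2, hS3⟩ := approx T k (fun j => dl A j) η hη
    have e1 : Eqv (S.comp T) := eqv_of_comm hR _ fun h R₁ R₂ h1 h2 x => by
      have h3 := hS3 R₁ R₂ (hcT h R₁ R₂ h1 h2)
      change S (T (R₁ x)) = R₂ (S (T x))
      rw [hcT h R₁ R₂ h1 h2, h3.1]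
    have e2 : Eqv (T.adjoint) := eqv_of_comm hR _ fun h R₁ R₂ h1 h2 x =>
      (hS3 R₂ R₁ (hcT h R₂ R₁ h2 h1)).2 x
    have h1 := hT A n k (S.comp T) T.adjoint e1 e2
    rw [tr'_eq, tr'_eq] at h1
    have h2 : ∑ j : Fin k, (‖T.range.topologicalClosure.starProjection (dl A j)‖ ^ 2 - η) ≤
        ∑ j : Fin k, inner ℝ (((S.comp T).comp T.adjoint) (dl A j)) (dl A j) :=
      Finset.sum_le_sum fun j _ => hS2 j
    have h3 : ∑ j : Fin n, inner ℝ ((T.adjoint.comp (S.comp T)) (dl A j)) (dl A j) ≤ dm E := by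
      refine Finset.sum_le_sum fun j _ => ?_
      change inner ℝ (T.adjoint (S (T (dl A j)))) (dl A j) ≤ ‖P (dl A j)‖ ^ 2
      have h4 := hS1 (P (dl A j))
      rw [hTP, ContinuousLinearMap.adjoint_inner_left, hTP] at h4
      rw [ContinuousLinearMap.adjoint_inner_left]
      exact h4
    have h5 : dm (E.map (C : L2 (Fin n × A) →ₗ[ℝ] L2 (Fin k × A))) ≤
        ∑ j : Fin k, ‖T.range.topologicalClosure.starProjection (dl A j)‖ ^ 2 :=
      Finset.sum_le_sum fun j _ => by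
        have := proj_mono _ _ hle (dl A j)
        gcongr
    rw [Finset.sum_sub_distrib] at h2
    simp only [Finset.sum_const, Finset.card_univ, Fintype.card_fin, nsmul_eq_mul] at h2
    linarith
  by_contra hc
  push Not at hc
  set D := dm (E.map (C : L2 (Fin n × A) →ₗ[ℝ] L2 (Fin k × A))) with hD
  have h1 := key ((D - dm E) / (2 * (k + 1))) (by
    have : (0 : ℝ) < 2 * (k + 1) := by positivity
    apply div_pos (by linarith) this)
  have h2 : (k : ℝ) * ((D - dm E) / (2 * (k + 1))) ≤ (D - dm E) / 2 := by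
    have h3 : (0 : ℝ) < k + 1 := by positivity
    have h4 : (k : ℝ) * ((D - dm E) / (2 * (k + 1))) = (k / (k + 1)) * ((D - dm E) / 2) := by
      field_simp
    rw [h4]
    have h5 : (k : ℝ) / (k + 1) ≤ 1 := by
      rw [div_le_one h3]; linarith
    nlinarith
  linarith

end Pool.Agent.Helper74.VF
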